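import Pool.Agent.D0H42.L3B.All
import Pool.Agent.D0H42.L9B.Fin
import Pool.Agent.D0H42.L9D.Fin
import Pool.Agent.D0H45.L3.Fin

/-!
# The 3-part of the leading-term formula over `ℚ`: cubic twists `y² + D y = x³` with `3 ∣ D`

`E_D : y² + D y = x³` is `3`-isogenous to `x³ + y³ = D`; the starting results of this problem are about
the `D` prime to `3`. Here `D` is cube-free and divisible by `3`:

* `D = 3 d`, all the prime factors of `d ≠ 1` are `1` modulo `3`, or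
* `D = 9 d`, exactly one prime factor of `d` is `2` modulo `3`, all the others are `1` modulo `3`,

`d` prime to `3`. All these curves have wild reduction of additive type at `3`. For all of them the
equation is minimal, all Tamagawa numbers are `3`, `L(E_D, s)` is entire,
`u = L(E_D, 1) |E_D(ℚ)_tors|² / (Ω ∏ c_p)` is integral at `3`, and it is a unit at `3` if and only if
`E_D(ℚ)` is finite and `Ш(E_D/ℚ)[3^∞] = 0`, if and only if `D` does not split as `d₀ d₁ d₂`. This holds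
for exactly the proportion `∏_{i ≥ 1} (1 - 3^{-i}) = 0.5601...` of the squarefree `d` in both families.

In the second family the reduction of the central value modulo the prime above three is not a
determinant of a Laplacian, as in the first family and for `D` prime to `3`, but the determinant of
a bordered Laplacian (projects L3 and L9 of helper43; parts by helpers 2, 10, 15, 42, 45, 52, 55, 69,
92; see `Pool/Agent/D0H43/L3`, `Pool/Agent/D0H43/L9`).
-/

set_option autoImplicit false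

open scoped Classical

namespace Pool.Agent.Results.MP_4a9ea6_nt.ThreePartDivisibleByThree

open Pool.Agent.Y703.CT (WD IsL tamProd tors ThreeInt ThreeUnit Triv3)
open Pool.Agent.W97.MT (IsGloballyMinimal)
open Pool.Agent.Y700 (Omega)

/-- `D` is cube-free and divisible by `3`, and either `9 ∤ D`, `D ≠ 3` and all the prime factors of
`D` different from `3` are `1` modulo `3`, or `9 ∣ D` and this is so for all but exactly one of them -/
def Class (D : ℕ) : Prop := D ≠ 0 ∧ 3 ∣ D ∧ (∀ p : ℕ, p.Prime → ¬ p ^ 3 ∣ D) ∧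
  ((¬ 9 ∣ D ∧ D ≠ 3 ∧ ∀ p : ℕ, p.Prime → p ∣ D → p ≠ 3 → p % 3 = 1) ∨
    (9 ∣ D ∧ ∃ q : ℕ, q.Prime ∧ q % 3 = 2 ∧ q ∣ D ∧
      ∀ p : ℕ, p.Prime → p ∣ D → p ≠ 3 → p ≠ q → p % 3 = 1))

/-- the modulus of the condition at the prime `p`: `p`, but `9` for `p = 3`, and no condition for
`p = 3` if `9 ∤ D` -/
def modulus (D p : ℕ) : ℕ := if p = 3 then (if 9 ∣ D then 9 else 1) else p

/-- `D` is not a product `d₀ d₁ d₂` of coprime factors, at least two of them different from `1`,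
such that `d₁ d₂²`, `d₂ d₀²`, `d₀ d₁²` are cubes modulo the primes (see `modulus`) dividing
`d₀`, `d₁`, `d₂` -/
def NoSplit (D : ℕ) : Prop :=
  ∀ d : ZMod 3 → ℕ, ∏ c, d c = D → (∀ c c', c ≠ c' → Nat.Coprime (d c) (d c')) →
    (∀ (c : ZMod 3) (p : ℕ), p.Prime → p ∣ d c →
      ∃ x : ℤ, (modulus D p : ℤ) ∣ (d (c + 1) : ℤ) * (d (c + 2) : ℤ) ^ 2 - x ^ 3) →
    ∃ c, ∀ c', c' ≠ c → d c' = 1

/-- the two families: `k = 3` or `k = 9`, `d` squarefree and prime to `3`, `k d` in the class -/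
def Family (k d : ℕ) : Prop := Squarefree d ∧ ¬ 3 ∣ d ∧ Class (k * d)

lemma class_three {d : ℕ} (h3 : ¬ 3 ∣ d) : Class (3 * d) ↔ Pool.Agent.D0H43.L3.Cl3 d := by
  have h9 : ¬ 9 ∣ 3 * d := fun h => h3 (by obtain ⟨k, hk⟩ := h; exact ⟨k, by omega⟩)
  unfold Class Pool.Agent.D0H43.L3.Cl3
  constructor
  · rintro ⟨h0, -, hc, h⟩
    rcases h with ⟨-, hn, hp⟩ | ⟨h, -⟩
    · refine ⟨by omega, fun h1 => hn (by rw [h1]), fun p hp' hd => hc p hp' (hd.mul_left 3),
        fun p hp' hd => hp p hp' (hd.mul_left 3) ?_⟩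
      rintro rfl
      exact h3 hd
    · exact absurd h h9
  · rintro ⟨h0, h1, hc, hp⟩
    refine ⟨by omega, dvd_mul_right _ _, fun p hp' hd => ?_, Or.inl ⟨h9, by omega, ?_⟩⟩
    · have hC : Pool.Agent.D0H43.L3.Cl3 d := ⟨h0, h1, hc, hp⟩
      exact (Pool.Agent.D0H42.L3B.cl_cf0 hC).2 p hp' hd
    · intro p hp' hd hne
      rcases (Nat.Prime.dvd_mul hp').1 hd with h | h
      · exact absurd ((Nat.prime_dvd_prime_iff_eq hp' Nat.prime_three).1 h) hne
      · exact hp p hp' h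

lemma class_nine {d : ℕ} (h3 : ¬ 3 ∣ d) : Class (9 * d) ↔ Pool.Agent.D0H43.L9.Cl9 d := by
  unfold Class Pool.Agent.D0H43.L9.Cl9
  have hp9 : ∀ p : ℕ, p.Prime → p ∣ 9 * d → p ≠ 3 → p ∣ d := by
    intro p hp hd hne
    rcases (Nat.Prime.dvd_mul hp).1 hd with h | h
    · have h' : p ∣ 3 ^ 2 := h
      exact absurd ((Nat.prime_dvd_prime_iff_eq hp Nat.prime_three).1 (hp.dvd_of_dvd_pow h')) hne
    · exact h
  constructor
  · rintro ⟨h0, -, hc, h⟩
    rcases h with ⟨h, -⟩ | ⟨-, q, hq, hq2, hqd, hp⟩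
    · exact absurd (dvd_mul_right 9 d) h
    · refine ⟨by omega, h3, fun p hp' hd => hc p hp' (hd.mul_left 9), q, hq, hq2,
        hp9 q hq hqd (by rintro rfl; omega), fun p hp' hd hne => hp p hp' (hd.mul_left 9) ?_ hne⟩
      rintro rfl
      exact h3 hd
  · rintro ⟨h0, -, hc, q, hq, hq2, hqd, hp⟩
    have hC : Pool.Agent.D0H43.L9.Cl9 d := ⟨h0, h3, hc, q, hq, hq2, hqd, hp⟩
    refine ⟨by omega, ⟨3 * d, by ring⟩, (Pool.Agent.D0H42.L9B.cl_cf0 hC).2,
      Or.inr ⟨dvd_mul_right _ _, q, hq, hq2, hqd.mul_left 9, fun p hp' hd h1 h2 => ?_⟩⟩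
    exact hp p hp' (hp9 p hp' hd h1) h2

lemma noSplit_three {d : ℕ} (h3 : ¬ 3 ∣ d) :
    NoSplit (3 * d) ↔ Pool.Agent.D0H43.L3.NoSplit3 (3 * d) := by
  have h9 : ¬ 9 ∣ 3 * d := fun h => h3 (by obtain ⟨k, hk⟩ := h; exact ⟨k, by omega⟩)
  unfold NoSplit Pool.Agent.D0H43.L3.NoSplit3
  refine forall_congr' fun f => imp_congr_right fun _ => imp_congr_right fun _ => imp_congr_left ?_
  constructor
  · intro h c p hp hne hd
    obtain ⟨x, hx⟩ := h c p hp hd
    refine ⟨x, ?_⟩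
    rwa [modulus, if_neg hne] at hx
  · intro h c p hp hd
    by_cases hne : p = 3
    · refine ⟨0, ?_⟩
      rw [modulus, if_pos hne, if_neg h9]
      exact one_dvd _
    · obtain ⟨x, hx⟩ := h c p hp hne hd
      refine ⟨x, ?_⟩
      rwa [modulus, if_neg hne]

lemma noSplit_nine (d : ℕ) : NoSplit (9 * d) ↔ Pool.Agent.D0H43.L9.NoSplit9 (9 * d) := by
  unfold NoSplit Pool.Agent.D0H43.L9.NoSplit9
  have e : ∀ p, modulus (9 * d) p = if p = 3 then 9 else p := fun p => by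
    unfold modulus
    rw [if_pos (dvd_mul_right 9 d)]
  simp only [e]

/-- a member of the class is in one of the two families of the library -/
lemma cases {D : ℕ} (h : Class D) : ∃ d, ¬ 3 ∣ d ∧ (D = 3 * d ∨ D = 9 * d) := by
  have h' := h
  obtain ⟨h0, ⟨d, rfl⟩, hc, -⟩ := h
  by_cases h3 : 3 ∣ d
  · obtain ⟨d', rfl⟩ := h3
    refine ⟨d', fun h4 => ?_, Or.inr (by ring)⟩
    obtain ⟨k, rfl⟩ := h4
    exact hc 3 Nat.prime_three ⟨k, by ring⟩
  · exact ⟨d, h3, Or.inl rfl⟩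

lemma low_aux {c y : ℝ} {X : ℕ} (h : c * X * (Real.log X) ^ (-(1 / 2) : ℝ) ≤ y) :
    c * X / Real.sqrt (Real.log X) ≤ y := by
  refine le_trans (le_of_eq ?_) h
  rw [div_eq_mul_inv, Real.sqrt_eq_rpow, ← Real.rpow_neg (Real.log_natCast_nonneg X)]

/-- the formula -/
theorem formula {D : ℕ} (h : Class D) : IsGloballyMinimal (WD D) ∧
    tamProd (WD D) = 3 ^ D.primeFactors.card ∧
    ∃ f : ℂ → ℂ, IsL (WD D) f ∧ ∃ u : ℂ,
      f 1 = u * (((Omega (WD D) : ℝ) : ℂ) * (tamProd (WD D) : ℂ) / (tors D : ℂ) ^ 2) ∧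
      ThreeInt u ∧ (ThreeUnit u ↔ Triv3 D) ∧ (Triv3 D ↔ NoSplit D) := by
  obtain ⟨d, h3, rfl | rfl⟩ := cases h
  · have hC := (class_three h3).1 h
    rw [noSplit_three h3]
    obtain ⟨h1, h2⟩ := Pool.Agent.D0H42.L3B.bsd3 hC
    exact ⟨h1, Pool.Agent.D0H42.L3B.tam3 Pool.Agent.Y809.BSD14.t_E0
      (Pool.Agent.D0H42.L3B.cl_cf0 hC) (dvd_mul_right 3 d), h2⟩
  · have hC := (class_nine h3).1 h
    rw [noSplit_nine]
    obtain ⟨h1, h2⟩ := Pool.Agent.D0H42.L9B.bsd9 hC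
    exact ⟨h1, Pool.Agent.D0H42.L3B.tam3 Pool.Agent.Y809.BSD14.t_E0
      (Pool.Agent.D0H42.L9B.cl_cf0 hC) (dvd_mul_of_dvd_left (by norm_num) d), h2⟩

theorem result :
    (∀ D : ℕ, Class D → IsGloballyMinimal (WD D) ∧
      tamProd (WD D) = 3 ^ D.primeFactors.card ∧
      ∃ f : ℂ → ℂ, IsL (WD D) f ∧ ∃ u : ℂ,
        f 1 = u * (((Omega (WD D) : ℝ) : ℂ) * (tamProd (WD D) : ℂ) / (tors D : ℂ) ^ 2) ∧
        ThreeInt u ∧ (ThreeUnit u ↔ Triv3 D) ∧ (Triv3 D ↔ NoSplit D)) ∧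
    (0.56 : ℝ) < ∏' i : ℕ, (1 - (1 / 3 : ℝ) ^ (i + 1)) ∧
    ∀ k : ℕ, k = 3 ∨ k = 9 →
      (∃ c : ℝ, 0 < c ∧ ∃ X₀ : ℕ, ∀ X : ℕ, X₀ ≤ X →
        c * X / Real.sqrt (Real.log X) ≤ (((Finset.Icc 1 X).filter fun d => Family k d).card : ℝ)) ∧
      Filter.Tendsto (fun X : ℕ =>
          (((Finset.Icc 1 X).filter fun d => Family k d ∧ Triv3 (k * d)).card : ℝ) /
          (((Finset.Icc 1 X).filter fun d => Family k d).card : ℝ)) Filter.atTop
        (nhds (∏' i : ℕ, (1 - (1 / 3 : ℝ) ^ (i + 1)))) := by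
  refine ⟨fun _ h => formula h, Pool.Agent.Y461.CX.t_C3.2.2.2, ?_⟩
  have hfam : ∀ k d, Family k d → (Triv3 (k * d) ↔ NoSplit (k * d)) := by
    rintro k d ⟨-, -, hC⟩
    obtain ⟨-, -, f, -, u, -, -, -, h⟩ := formula hC
    exact h
  have e3 : ∀ d, Family 3 d ↔ Squarefree d ∧ Pool.Agent.D0H43.L3.Cl3 d := by
    intro d
    constructor
    · rintro ⟨h1, h2, h3⟩
      exact ⟨h1, (class_three h2).1 h3⟩
    · rintro ⟨h1, h3⟩
      have h2 : ¬ 3 ∣ d := fun h => by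
        have := h3.2.2.2 3 Nat.prime_three h
        omega
      exact ⟨h1, h2, (class_three h2).2 h3⟩
  have e9 : ∀ d, Family 9 d ↔ Squarefree d ∧ Pool.Agent.D0H43.L9.Cl9 d := by
    intro d
    constructor
    · rintro ⟨h1, h2, h3⟩
      exact ⟨h1, (class_nine h2).1 h3⟩
    · rintro ⟨h1, h3⟩
      exact ⟨h1, h3.2.1, (class_nine h3.2.1).2 h3⟩
  have g3 : ∀ d, (Family 3 d ∧ Triv3 (3 * d)) ↔
      Squarefree d ∧ Pool.Agent.D0H43.L3.Cl3 d ∧ Pool.Agent.D0H43.L3.NoSplit3 (3 * d) := by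
    intro d
    rw [← and_assoc, ← e3]
    exact and_congr_right fun h => by rw [hfam 3 d h, noSplit_three h.2.1]
  have g9 : ∀ d, (Family 9 d ∧ Triv3 (9 * d)) ↔
      Squarefree d ∧ Pool.Agent.D0H43.L9.Cl9 d ∧ Pool.Agent.D0H43.L9.NoSplit9 (9 * d) := by
    intro d
    rw [← and_assoc, ← e9]
    exact and_congr_right fun h => by rw [hfam 9 d h, noSplit_nine]
  rintro k (rfl | rfl)
  · refine ⟨?_, ?_⟩
    · obtain ⟨c, X₀, hc, h⟩ := Pool.Agent.D0H45.L3.Low.t_LOW1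
      refine ⟨c, hc, X₀, fun X hX => ?_⟩
      have h1 := h X hX
      have e2 := Pool.Agent.D0H45.L3.Ns.card_eq X (fun _ => True) (fun _ => True)
        fun _ _ _ => Iff.rfl
      rw [Finset.filter_true] at e2
      simp only [and_true] at e2
      rw [← e2] at h1
      simp only [e3]
      exact low_aux h1
    · have h := Pool.Agent.D0H45.L3.t_DEN3
      unfold Pool.Agent.D0H43.L3.S_DEN3 Pool.Agent.Y703.CX.c3 at h
      simp only [g3]
      simp only [e3]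
      exact h
  · refine ⟨?_, ?_⟩
    · obtain ⟨c, X₀, hc, h⟩ := Pool.Agent.D0H42.L9D.Low.t_LOW9
      refine ⟨c, hc, X₀, fun X hX => ?_⟩
      have h1 := h X hX
      have e2 := Pool.Agent.D0H42.L9D.Ns.card_eq X (fun _ => True) (fun _ => True)
        fun _ _ _ => Iff.rfl
      rw [Finset.filter_true] at e2
      simp only [and_true] at e2
      rw [← e2] at h1
      simp only [e9]
      exact low_aux h1
    · have h := Pool.Agent.D0H42.L9D.t_DEN9
      unfold Pool.Agent.D0H43.L9.S_DEN9 Pool.Agent.Y703.CX.c3 at h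
      simp only [g9]
      simp only [e9]
      exact h

end Pool.Agent.Results.MP_4a9ea6_nt.ThreePartDivisibleByThree
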