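import Pool.Agent.D0H42.L0.Fin
import Pool.Agent.D0H45.L0.Fin
import Pool.Agent.Y461.CX.C3

/-!
# The 3-part of the leading-term formula over `ℚ`: cubic twists `y² + D y = x³` with `D = ±1` mod `9`

`E_D : y² + D y = x³` is `3`-isogenous to `x³ + y³ = D`. The starting results of this problem treat
the `D` prime to `3` that are not `±1` modulo `9`, with exactly one prime factor `2` modulo `3`. Here
`D` is cube-free, `±1` modulo `9`, and exactly two prime factors of `D` are `2` modulo `3`. This is the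
case in which the cubic character of `D` is unramified at `√-3`. For all these curves the equation is
minimal, `L(E_D, s)` is entire, `u = L(E_D, 1) |E_D(ℚ)_tors|² / (Ω ∏ c_p)` is integral at `3`, and it is
a unit at `3` if and only if `E_D(ℚ)` is finite and `Ш(E_D/ℚ)[3^∞] = 0`, if and only if `D` does not
split as `d₀ d₁ d₂`. This holds for exactly the proportion `∏_{i ≥ 1} (1 - 3^{-i}) = 0.5601...` of the
squarefree `D` of the class.

In this class the terms of first order in the congruences for the central value cancel, and the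
value is determined by the terms of second order (project L0, led by helper69; parts by helpers 2,
15, 42, 45, 52, 69, 92, see `Pool/Agent/D0H69/L0`).
-/

set_option autoImplicit false

open scoped Classical

namespace Pool.Agent.Results.MP_4a9ea6_nt.ThreePartOneModNine

open Pool.Agent.Y703.CT (WD IsL tamProd tors ThreeInt ThreeUnit Triv3)
open Pool.Agent.W97.MT (IsGloballyMinimal)
open Pool.Agent.Y700 (Omega)

/-- `D` is cube-free and `±1` modulo `9`, and exactly two prime factors of `D` are `2` modulo `3` -/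
def Class (D : ℕ) : Prop := D ≠ 0 ∧ (∀ p : ℕ, p.Prime → ¬ p ^ 3 ∣ D) ∧ (D % 9 = 1 ∨ D % 9 = 8) ∧
  (D.primeFactors.filter fun p => p % 3 = 2).card = 2

/-- `D` is not a product `d₀ d₁ d₂` of coprime factors, at least two of them different from `1`,
such that, for all `c` (indices modulo `3`), `d_{c+1} d_{c+2}²` is a cube modulo `9` and modulo all the
primes dividing `d_c` -/
def NoSplit (D : ℕ) : Prop :=
  ∀ d : ZMod 3 → ℕ, ∏ c, d c = D → (∀ c c', c ≠ c' → Nat.Coprime (d c) (d c')) →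
    (∀ (c : ZMod 3) (m : ℕ), (m = 9 ∨ (m.Prime ∧ m ∣ d c)) →
      ∃ x : ℤ, (m : ℤ) ∣ (d (c + 1) : ℤ) * (d (c + 2) : ℤ) ^ 2 - x ^ 3) →
    ∃ c, ∀ c', c' ≠ c → d c' = 1

lemma class_iff {D : ℕ} : Class D ↔ Pool.Agent.D0H69.L0.Cl0 D := by
  unfold Class Pool.Agent.D0H69.L0.Cl0
  tauto

lemma noSplit_iff {D : ℕ} : NoSplit D ↔ Pool.Agent.D0H69.L0.NoSplit0 D := by
  unfold NoSplit Pool.Agent.D0H69.L0.NoSplit0
  constructor
  · intro h d h1 h2 h3 h4
    refine h d h1 h2 fun c m hm => ?_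
    rcases hm with rfl | ⟨hm, hd⟩
    · exact h4 c
    · exact h3 c m hm hd
  · intro h d h1 h2 h3
    exact h d h1 h2 (fun c p hp hd => h3 c p (Or.inr ⟨hp, hd⟩)) fun c => h3 c 9 (Or.inl rfl)

lemma low_aux {c y : ℝ} {X : ℕ} (h : c * X * (Real.log X) ^ (-(1 / 2) : ℝ) ≤ y) :
    c * X / Real.sqrt (Real.log X) ≤ y := by
  refine le_trans (le_of_eq ?_) h
  rw [div_eq_mul_inv, Real.sqrt_eq_rpow, ← Real.rpow_neg (Real.log_natCast_nonneg X)]

/-- the formula -/
theorem formula {D : ℕ} (h : Class D) : IsGloballyMinimal (WD D) ∧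
    (∃ m : ℕ, ¬ 3 ∣ m ∧ tamProd (WD D) = 3 ^ D.primeFactors.card * m) ∧
    ∃ f : ℂ → ℂ, IsL (WD D) f ∧ ∃ u : ℂ,
      f 1 = u * (((Omega (WD D) : ℝ) : ℂ) * (tamProd (WD D) : ℂ) / (tors D : ℂ) ^ 2) ∧
      ThreeInt u ∧ (ThreeUnit u ↔ Triv3 D) ∧ (Triv3 D ↔ NoSplit D) := by
  have hC := class_iff.1 h
  rw [noSplit_iff]
  obtain ⟨h1, h2⟩ := Pool.Agent.D0H42.L0.bsd0 hC
  exact ⟨h1, Pool.Agent.Y145.CT.tamThm Pool.Agent.Y809.BSD14.t_E0 D
    (Pool.Agent.D0H52.L0.base0 hC), h2⟩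

theorem result :
    (∀ D : ℕ, Class D → IsGloballyMinimal (WD D) ∧
      (∃ m : ℕ, ¬ 3 ∣ m ∧ tamProd (WD D) = 3 ^ D.primeFactors.card * m) ∧
      ∃ f : ℂ → ℂ, IsL (WD D) f ∧ ∃ u : ℂ,
        f 1 = u * (((Omega (WD D) : ℝ) : ℂ) * (tamProd (WD D) : ℂ) / (tors D : ℂ) ^ 2) ∧
        ThreeInt u ∧ (ThreeUnit u ↔ Triv3 D) ∧ (Triv3 D ↔ NoSplit D)) ∧
    (0.56 : ℝ) < ∏' i : ℕ, (1 - (1 / 3 : ℝ) ^ (i + 1)) ∧
    (∃ c : ℝ, 0 < c ∧ ∃ X₀ : ℕ, ∀ X : ℕ, X₀ ≤ X → c * X / Real.sqrt (Real.log X) ≤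
      (((Finset.Icc 1 X).filter fun D => Squarefree D ∧ Class D).card : ℝ)) ∧
    Filter.Tendsto (fun X : ℕ =>
        (((Finset.Icc 1 X).filter fun D => Squarefree D ∧ Class D ∧ Triv3 D).card : ℝ) /
        (((Finset.Icc 1 X).filter fun D => Squarefree D ∧ Class D).card : ℝ)) Filter.atTop
      (nhds (∏' i : ℕ, (1 - (1 / 3 : ℝ) ^ (i + 1)))) := by
  refine ⟨fun _ h => formula h, Pool.Agent.Y461.CX.t_C3.2.2.2, ?_, ?_⟩
  · obtain ⟨c, X₀, hc, h⟩ := Pool.Agent.D0H45.L0.Low.t_LOW0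
    refine ⟨c, hc, X₀, fun X hX => ?_⟩
    have h1 := h X hX
    have e2 := Pool.Agent.D0H45.L0.Ns.card_eq X (fun _ => True) (fun _ => True)
      fun _ _ _ => Iff.rfl
    rw [Finset.filter_true] at e2
    simp only [and_true] at e2
    rw [← e2] at h1
    simp only [class_iff]
    exact low_aux h1
  · have h := Pool.Agent.D0H45.L0.t_DEN0
    unfold Pool.Agent.D0H69.L0.S_DEN0 Pool.Agent.Y703.CX.c3 at h
    have g : ∀ D, (Squarefree D ∧ Class D ∧ Triv3 D) ↔
        Squarefree D ∧ Pool.Agent.D0H69.L0.Cl0 D ∧ Pool.Agent.D0H69.L0.NoSplit0 D := by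
      intro D
      refine and_congr_right fun _ => ?_
      rw [← class_iff]
      refine and_congr_right fun hC => ?_
      obtain ⟨-, -, f, -, u, -, -, -, h⟩ := formula hC
      rw [h, noSplit_iff]
    simp only [g]
    simp only [class_iff]
    exact h

end Pool.Agent.Results.MP_4a9ea6_nt.ThreePartOneModNine
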