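import Pool.Agent.D0H42.X36.AllD

/-!
# The 2-part of the strong Birch and Swinnerton-Dyer conjecture over `ℚ` for the quadratic twists
# `y² = x³ + D³` of `y² = x³ + 1`

`D` is a squarefree integer, positive or negative, prime to three, with `|D| ≡ 1 mod 4`; these are exactly
the odd squarefree `D` prime to three for which the sign of the functional equation of
`E_D : y² = x³ + D³` is `+1` (`E_1` is the curve `X_0(36)`; complex multiplication by `ℤ[ω]`, in which two is
inert; one rational point of order two). Let `z = #E_D(ℚ)_tors² L(E_D, 1) / (Ω ∏ c_p)`, which is zero or the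
order of `Ш(E_D/ℚ)` according to the conjecture. The theorem says, with no hypothesis on the rank or on
`Ш`, for all these `D` (they have a positive density in `ℤ`):
* `L(E_D, s)` is entire, the equation is minimal, the torsion subgroup has two elements (six for `D = 1`),
  and `∏ c_p = 2 c_2 ∏_{p ∣ D} c_p` with `c_2 = 3` for `D ≡ 1 mod 8` and `c_2 = 1` otherwise, `c_p = 4` for
  `p ≡ 1 mod 3` and `c_p = 2` for `p ≡ 2 mod 3`;
* `z` is an algebraic number which is integral at all the primes above two;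
* `z` is a unit at one prime above two iff it is so at all of them iff `E_D(ℚ)` is finite and
  `Ш(E_D/ℚ)` has no element of order two;
* in this case `L(E_D, 1) ≠ 0` and the 2-primary part of `Ш(E_D/ℚ)` is zero (`TwoPart D`);
* `TwoPart D` holds exactly for the proportion `(1/2) ∏_{i ≥ 0} (1 - 2^{-(2i+1)}) = 0.2097...` of all these
  `D`, ordered by absolute value.

Method. Let `K = ℚ(ω)`, `V` the set of the prime elements `π ≡ 1 mod 2√-3` dividing `D`, and for
`T ⊆ V` let `L(T)` be the central value of the Hecke L-function of the product of the `π ∈ T`, without the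
Euler factors at `V`. The sum `∑_{T ⊆ V} L(T)` is a sum of values of an elliptic function at the
`D`-division points which are quadratic residues modulo all the `π`, it is divisible by `2^{|V|}` modulo a
known factor, with explicit quotient modulo two: its class is the number of the classes modulo `D`
weighted by the residue symbols. Möbius inversion over `T ⊆ V` and an identity for the numbers of rooted
forests of directed graphs with labels in `𝔽₄ = ℤ[ω]/2` (a matrix tree theorem in characteristic two) give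
`L(E_D, 1) / (2^{|V|} Ω₀) ≡ det M (mod 2)`, where `M` is a matrix over `𝔽₄` with rows and columns indexed by `V`,
the Laplacian of the quadratic residue symbols `(ρ/π)`, with weights in `𝔽₄`, plus the diagonal of the classes
of `(π - 1) / 2` modulo two. Two is inert in `K` and a prime of supersingular reduction: the division points
play no role at two, which is why second-order theory is not needed. The complete 2-descent over `K` and over
`ℚ` gives the same matrix. The proportion comes from the distribution of `M` (over `ℚ`: a system of linear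
equations over `𝔽₂` attached to the primes of `D` of which the solution space is the kernel of a random
alternating form, if there are more primes `≡ 7` than primes `≡ 11 mod 12`, and positive dimensional
otherwise: this gives the factor `1/2`, by a central limit theorem).

Nearest work: Burungale and Tian (finite `2^∞`-Selmer group implies `L(E, 1) ≠ 0` for CM curves), Burungale and
Flach (the formula for CM curves if `L(E, 1) ≠ 0`), Smith (distribution of the `2^∞`-Selmer coranks), Zhao,
Coates-Li-Li, Cai-Li-Zhai, Kriz-Li. The proof here is independent of these.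

Joint work: helper42 (method, `Pool/Agent/D0H42/X36`), helper45 (distribution), and modules by helper2,
helper10, helper13, helper15, helper52, helper54, helper64, helper68, helper69, helper70, helper76, helper84.
-/

set_option autoImplicit false

open NumberField IsDedekindDomain WeierstrassCurve MeasureTheory

namespace Pool.Agent.Results.MP_4a9ea6_nt.TwoPartQuadraticTwistsX36

open Pool.Agent.TH841.NF.D (Sha)
open Pool.Agent.TH841.SH.D (Pt)

/-- The curve `y² = x³ + D³` over `ℤ`. -/
def curve (D : ℤ) : WeierstrassCurve ℤ := ⟨0, 0, 0, 0, D ^ 3⟩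

/-- The curve over `ℚ`. -/
abbrev E (D : ℤ) : WeierstrassCurve ℚ := (curve D).map (Int.castRingHom ℚ)

/-- The equation is minimal at the place `v`: no change of variables over `ℚ` that keeps the
coefficients integral at `v` decreases the order of the discriminant. -/
def MinimalAt (W : WeierstrassCurve ℚ) (v : HeightOneSpectrum (𝓞 ℚ)) : Prop :=
  ∀ C : VariableChange ℚ, v.valuation ℚ (C • W).a₁ ≤ 1 → v.valuation ℚ (C • W).a₂ ≤ 1 →
    v.valuation ℚ (C • W).a₃ ≤ 1 → v.valuation ℚ (C • W).a₄ ≤ 1 → v.valuation ℚ (C • W).a₆ ≤ 1 →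
    v.valuation ℚ (C • W).Δ ≤ v.valuation ℚ W.Δ

/-- `W⁰(ℚ_v)`, the group of the points of `W` over the completion `ℚ_v` with nonsingular reduction:
the point at infinity and the points `(x, y)` where `x` is not integral, or one of the partial
derivatives of `y² + a₁ x y + a₃ y - x³ - a₂ x² - a₄ x - a₆` is a unit at `(x, y)`.
Here `Pt W ℚ_v` is the group of the points of `W` over `ℚ_v`. -/
noncomputable def nonsing (W : WeierstrassCurve ℚ) (v : HeightOneSpectrum (𝓞 ℚ)) :
    AddSubgroup (Pt W (v.adicCompletion ℚ)) :=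
  AddSubgroup.closure {P | ∀ x y h, P = Affine.Point.some x y h →
    1 < Valued.v x ∨
    Valued.v ((W.baseChange (v.adicCompletion ℚ)).a₁ * y -
      (3 * x ^ 2 + 2 * (W.baseChange (v.adicCompletion ℚ)).a₂ * x +
        (W.baseChange (v.adicCompletion ℚ)).a₄)) = 1 ∨
    Valued.v (2 * y + (W.baseChange (v.adicCompletion ℚ)).a₁ * x +
      (W.baseChange (v.adicCompletion ℚ)).a₃) = 1}

/-- The Tamagawa number `c_v = [W(ℚ_v) : W⁰(ℚ_v)]` of a minimal equation. -/
noncomputable def c (W : WeierstrassCurve ℚ) (v : HeightOneSpectrum (𝓞 ℚ)) : ℕ :=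
  (nonsing W v).index

/-- The product of the Tamagawa numbers. -/
noncomputable def Tam (W : WeierstrassCurve ℚ) : ℕ := ∏ᶠ v : HeightOneSpectrum (𝓞 ℚ), c W v

/-- `4 x³ + b₂ x² + 2 b₄ x + b₆ = (2 y + a₁ x + a₃)²`. -/
def cubic (W : WeierstrassCurve ℤ) (x : ℝ) : ℝ := 4 * x ^ 3 + W.b₂ * x ^ 2 + 2 * W.b₄ * x + W.b₆

/-- `Ω = ∫_{W(ℝ)} |ω|` with `ω = dx / (2 y + a₁ x + a₃)`, as an integral over `x`: two real points lie
over each `x` with `cubic x > 0`. -/
noncomputable def Omega (W : WeierstrassCurve ℤ) : ℝ :=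
  2 * ∫ x in {x : ℝ | 0 < cubic W x}, 1 / √(cubic W x)

open Classical in
/-- The order of the torsion subgroup of `W(K)`. -/
noncomputable def torsOrder {K : Type} [Field K] (W : WeierstrassCurve K) : ℕ :=
  Nat.card (AddCommGroup.torsion W.toAffine.Point)

/-- The order of the Tate-Shafarevich group predicted by the formula, for the value `l` of the
L-function of `E_D` at `s = 1`: `#E_D(ℚ)_tors² l / (Ω ∏ c_v)`. -/
noncomputable def anOrder (D : ℤ) (l : ℂ) : ℂ :=
  l * (torsOrder (E D) : ℂ) ^ 2 / ((Omega (curve D) : ℝ) * (Tam (E D) : ℂ))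

/-- `D` is squarefree, prime to three, and its absolute value is `≡ 1` modulo `4`. -/
def Adm (D : ℤ) : Prop := Squarefree D ∧ D.natAbs % 4 = 1 ∧ ¬ (3 : ℤ) ∣ D

/-- `E_D(ℚ)` is finite and `Ш(E_D/ℚ)` has no element of order two. -/
def TrivialTwo (D : ℤ) : Prop :=
  Finite (E D).toAffine.Point ∧ ∀ x : Sha (E D), x + x = 0 → x = 0

/-- The 2-part of the conjecture, in the case that `z` is a unit at two: `E_D(ℚ)` is finite, the
2-primary part of `Ш` is zero, `L(E_D, s)` has an entire continuation `Λ` with `Λ 1 ≠ 0`, and the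
predicted order of `Ш` is a unit at all the primes above two. -/
def TwoPart (D : ℤ) : Prop :=
  Finite (E D).toAffine.Point ∧ (∀ (n : ℕ) (x : Sha (E D)), 2 ^ n • x = 0 → x = 0) ∧
    ∃ Λ : ℂ → ℂ, Differentiable ℂ Λ ∧ (∀ s : ℂ, 2 < s.re → Λ s = (E D).LSeries s) ∧ Λ 1 ≠ 0 ∧
      ∃ n : ℤ, Odd n ∧ _root_.IsIntegral ℤ (n * anOrder D (Λ 1)) ∧
        _root_.IsIntegral ℤ (n * (anOrder D (Λ 1))⁻¹)

section proof

open Pool.Agent.D0H42.X36 (eD cD ClsD CrD OmD anD coreD selD_iff trivD minD torsD tamD bx byy)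

lemma Om_eq (D : ℤ) : OmD D = Omega (curve D) := by
  unfold OmD Omega
  have h : ∀ x : ℝ, cubic (curve D) x = 4 * x ^ 3 + 4 * (D : ℝ) ^ 3 := by
    intro x
    unfold cubic curve WeierstrassCurve.b₂ WeierstrassCurve.b₄ WeierstrassCurve.b₆
    push_cast
    ring
  simp_rw [h]

lemma an_eq (D : ℤ) (l : ℂ) : anD D l = anOrder D l := by
  unfold anD anOrder
  rw [Om_eq]
  rfl

theorem triv_iff {D : ℤ} (h : Adm D) : TrivialTwo D ↔ CrD D := selD_iff bx byy h

theorem core {D : ℤ} (h : Adm D) :
    (∀ v : HeightOneSpectrum (𝓞 ℚ), MinimalAt (E D) v) ∧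
    torsOrder (E D) = (if D = 1 then 6 else 2) ∧
    Tam (E D) = 2 * (if D % 8 = 1 then 3 else 1) *
      ∏ p ∈ D.natAbs.primeFactors, (if p % 3 = 1 then 4 else 2) ∧
    (TrivialTwo D → ∀ (n : ℕ) (x : Sha (E D)), 2 ^ n • x = 0 → x = 0) ∧
    ∃ Λ : ℂ → ℂ, Differentiable ℂ Λ ∧
      (∀ s : ℂ, 2 < s.re → Λ s = (E D).LSeries s) ∧
      (∃ n : ℤ, Odd n ∧ _root_.IsIntegral ℤ (n * anOrder D (Λ 1))) ∧
      (∀ (Γ : Type) [LinearOrderedCommGroupWithZero Γ] (v : Valuation ℂ Γ), v 2 < 1 →
        v (anOrder D (Λ 1)) ≤ 1 ∧ (v (anOrder D (Λ 1)) = 1 ↔ TrivialTwo D)) ∧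
      (TrivialTwo D → Λ 1 ≠ 0 ∧ ∃ n : ℤ, Odd n ∧ _root_.IsIntegral ℤ (n * anOrder D (Λ 1)) ∧
        _root_.IsIntegral ℤ (n * (anOrder D (Λ 1))⁻¹)) := by
  obtain ⟨Λ, h1, h2, h3, h4, h5⟩ := coreD bx byy h
  simp only [an_eq] at h3 h4 h5
  refine ⟨minD bx byy h, torsD bx byy h, tamD bx byy h, fun ht => (trivD bx byy h
    ((triv_iff h).1 ht)).2, Λ, h1, fun s hs => (h2 s hs).2, h3, ?_, fun ht => h5 ((triv_iff h).1 ht)⟩
  intro Γ _ v hv
  obtain ⟨h6, h7⟩ := h4 Γ v hv
  exact ⟨h6, h7.trans (triv_iff h).symm⟩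

/-- the 2-part of the conjecture holds exactly in the case of a trivial descent -/
theorem two_iff {D : ℤ} (h : Adm D) : TwoPart D ↔ TrivialTwo D := by
  obtain ⟨-, -, -, h5, Λ, h6, h7, -, -, h8⟩ := core h
  constructor
  · rintro ⟨hf, hs, -⟩
    exact ⟨hf, fun x hx => hs 1 x (by rw [pow_one, two_nsmul]; exact hx)⟩
  · intro hd
    obtain ⟨h9, h10⟩ := h8 hd
    exact ⟨hd.1, h5 hd, Λ, h6, h7, h9, h10⟩

end proof

open Classical in
/-- **The 2-part of the conjecture of Birch and Swinnerton-Dyer for the quadratic twists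
`y² = x³ + D³`.** -/
theorem result :
    (∀ D : ℤ, Adm D →
      (∀ v : HeightOneSpectrum (𝓞 ℚ), MinimalAt (E D) v) ∧
      torsOrder (E D) = (if D = 1 then 6 else 2) ∧
      Tam (E D) = 2 * (if D % 8 = 1 then 3 else 1) *
        ∏ p ∈ D.natAbs.primeFactors, (if p % 3 = 1 then 4 else 2) ∧
      (TwoPart D ↔ TrivialTwo D) ∧
      ∃ Λ : ℂ → ℂ, Differentiable ℂ Λ ∧
        (∀ s : ℂ, 2 < s.re → Λ s = (E D).LSeries s) ∧
        (∃ n : ℤ, Odd n ∧ _root_.IsIntegral ℤ (n * anOrder D (Λ 1))) ∧
        ∀ (Γ : Type) [LinearOrderedCommGroupWithZero Γ] (v : Valuation ℂ Γ), v 2 < 1 →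
          v (anOrder D (Λ 1)) ≤ 1 ∧ (v (anOrder D (Λ 1)) = 1 ↔ TrivialTwo D)) ∧
    Filter.Tendsto (fun X : ℕ =>
        (((Finset.Icc (-(X : ℤ)) X).filter fun D => Adm D ∧ TwoPart D).card : ℝ) /
        (((Finset.Icc (-(X : ℤ)) X).filter fun D => Adm D).card : ℝ)) Filter.atTop
      (nhds ((1 / 2) * ∏' i : ℕ, (1 - (1 / 2 : ℝ) ^ (2 * i + 1)))) := by
  refine ⟨fun D h => ?_, ?_⟩
  · obtain ⟨h1, h2, h3, -, Λ, h6, h7, h8, h9, -⟩ := core h
    exact ⟨h1, h2, h3, two_iff h, Λ, h6, h7, h8, h9⟩
  · refine Pool.Agent.D0H42.X36.denA.congr fun X => ?_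
    refine congrArg₂ (fun a b : ℕ => (a : ℝ) / (b : ℝ)) ?_ ?_
    · refine congrArg Finset.card (Finset.ext fun D => ?_)
      rw [Finset.mem_filter, Finset.mem_filter]
      refine and_congr_right fun _ => and_congr_right fun h => ?_
      exact ((triv_iff h).symm.trans (two_iff h).symm)
    · refine congrArg Finset.card (Finset.ext fun D => ?_)
      rw [Finset.mem_filter, Finset.mem_filter]
      rfl

end Pool.Agent.Results.MP_4a9ea6_nt.TwoPartQuadraticTwistsX36
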