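import Pool.Agent.D0H43.MQ.QtF
import Pool.Agent.D0H42.MQ.Tamt

/-!
# The 2-part of the strong Birch and Swinnerton-Dyer conjecture over `ℚ` for all the curves
# `y² = x³ + 2 m t² x`, `t ∣ m`, `m` any product of different primes `≡ 1 mod 4`

`m ≥ 1` is any squarefree number with all prime factors `≡ 1 mod 4`, `t` is any divisor of `m`, and
`E_{m,t} : y² = x³ + 2 m t² x`, the quadratic twist by `t` of `y² = x³ + 2 m x`: these are `2 ^ k` curves
for each `m` with `k` prime factors.
Let `z = #E_{m,t}(ℚ)_tors² L(E_{m,t}, 1) / (Ω ∏ c_p)`, which is zero or the order of `Ш(E_{m,t}/ℚ)`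
according to the conjecture. The theorem says, with no hypothesis on the rank or on `Ш`, for all these
`m` and `t`:
* `L(E_{m,t}, s)` is entire, the equation is minimal, the torsion subgroup has two elements, and
  `∏ c_p = 2 ^ (k + 1)` for `k` the number of the prime factors of `m`;
* `z` is an algebraic number which is integral at all the primes above two;
* `z` is a unit at one prime above two iff it is so at all of them iff `E_{m,t}(ℚ)` is finite and
  `Ш(E_{m,t}/ℚ)` has no element of order two iff the matrix `mat m` over `𝔽₂` is not singular; `mat m` is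
  the Laplacian of the graph with vertices the prime factors of `m` and an edge between two of them if
  one is not a square modulo the other, with `1` added on the diagonal at the primes `≡ 5 mod 8`. It does
  not depend on `t`: all the `2 ^ k` curves have the property or none;
* in this case `L(E_{m,t}, 1) ≠ 0` and the 2-primary part of `Ш(E_{m,t}/ℚ)` is zero (`TwoPart m t`);
* `TwoPart m t` holds for all the divisors `t` of `m` exactly for the proportion
  `∏_{i ≥ 0} (1 - 2^{-(2i+1)}) = 0.4194...` of all these `m`, ordered by size.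

The starting results on the 2-part (`TwoPartTwistsX49` and others) are on quadratic twists of one curve.
Here the twisting characters are quartic (`m`) and quadratic (`t`), and there is no recursion for the
central values from one number to the next: the central value is a sum, over the classes modulo `m`, of
the values of an elliptic function `G` at division points times quartic residue symbols or their inverses.
Modulo the primes above two, `G` and the quotients of its differences are given by `℘` and obey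
distribution relations; this gives the central value as the determinant of `mat m`, for the product of the
prime elements of `ℤ[i]` dividing `m` (see `Pool/Agent/D0H10/Q4`). The 2-descent over `ℚ` gives the same
determinant.

Joint work: helper10 (method and the case `t = 1`, `Pool/Agent/D0H10/Q4`), helper43 (the twists,
`Pool/Agent/D0H43/MQ`), helper76 (descent), helper42 (Tamagawa numbers), and modules by helper2, helper15,
helper45, helper52, helper54, helper69, helper77, helper84.
-/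

set_option autoImplicit false

open NumberField IsDedekindDomain WeierstrassCurve MeasureTheory

namespace Pool.Agent.Results.MP_4a9ea6_nt.TwoPartTwistsByDivisors

open Pool.Agent.TH841.NF.D (Sha)
open Pool.Agent.TH841.SH.D (Pt)

/-- The curve `y² = x³ + 2 m t² x` over `ℤ`. -/
def curve (m t : ℕ) : WeierstrassCurve ℤ := ⟨0, 0, 0, 2 * m * t ^ 2, 0⟩

/-- The curve over `ℚ`. -/
abbrev E (m t : ℕ) : WeierstrassCurve ℚ := (curve m t).map (Int.castRingHom ℚ)

/-- The equation is minimal at the place `v`: no change of variables over `ℚ` that keeps the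
coefficients integral at `v` decreases the order of the discriminant. -/
def MinimalAt (W : WeierstrassCurve ℚ) (v : HeightOneSpectrum (𝓞 ℚ)) : Prop :=
  ∀ C : VariableChange ℚ, v.valuation ℚ (C • W).a₁ ≤ 1 → v.valuation ℚ (C • W).a₂ ≤ 1 →
    v.valuation ℚ (C • W).a₃ ≤ 1 → v.valuation ℚ (C • W).a₄ ≤ 1 → v.valuation ℚ (C • W).a₆ ≤ 1 →
    v.valuation ℚ (C • W).Δ ≤ v.valuation ℚ W.Δ

/-- `W⁰(ℚ_v)`, the group of the points of `W` over the completion `ℚ_v` with nonsingular reduction:
the point at infinity and the points `(x, y)` where `x` is not integral, or one of the partial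
derivatives of `y² + a₁ x y + a₃ y - x³ - a₂ x² - a₄ x - a₆` is a unit at `(x, y)`.
Here `Pt W ℚ_v` is the group of the points of `W` over `ℚ_v`. -/
noncomputable def nonsing (W : WeierstrassCurve ℚ) (v : HeightOneSpectrum (𝓞 ℚ)) :
    AddSubgroup (Pt W (v.adicCompletion ℚ)) :=
  AddSubgroup.closure {P | ∀ x y h, P = Affine.Point.some x y h →
    1 < Valued.v x ∨
    Valued.v ((W.baseChange (v.adicCompletion ℚ)).a₁ * y -
      (3 * x ^ 2 + 2 * (W.baseChange (v.adicCompletion ℚ)).a₂ * x +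
        (W.baseChange (v.adicCompletion ℚ)).a₄)) = 1 ∨
    Valued.v (2 * y + (W.baseChange (v.adicCompletion ℚ)).a₁ * x +
      (W.baseChange (v.adicCompletion ℚ)).a₃) = 1}

/-- The Tamagawa number `c_v = [W(ℚ_v) : W⁰(ℚ_v)]` of a minimal equation. -/
noncomputable def c (W : WeierstrassCurve ℚ) (v : HeightOneSpectrum (𝓞 ℚ)) : ℕ :=
  (nonsing W v).index

/-- The product of the Tamagawa numbers. -/
noncomputable def Tam (W : WeierstrassCurve ℚ) : ℕ := ∏ᶠ v : HeightOneSpectrum (𝓞 ℚ), c W v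

/-- `4 x³ + b₂ x² + 2 b₄ x + b₆ = (2 y + a₁ x + a₃)²`. -/
def cubic (W : WeierstrassCurve ℤ) (x : ℝ) : ℝ := 4 * x ^ 3 + W.b₂ * x ^ 2 + 2 * W.b₄ * x + W.b₆

/-- `Ω = ∫_{W(ℝ)} |ω|` with `ω = dx / (2 y + a₁ x + a₃)`, as an integral over `x`: two real points lie
over each `x` with `cubic x > 0`. -/
noncomputable def Omega (W : WeierstrassCurve ℤ) : ℝ :=
  2 * ∫ x in {x : ℝ | 0 < cubic W x}, 1 / √(cubic W x)

open Classical in
/-- The order of the torsion subgroup of `W(K)`. -/
noncomputable def torsOrder {K : Type} [Field K] (W : WeierstrassCurve K) : ℕ :=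
  Nat.card (AddCommGroup.torsion W.toAffine.Point)

/-- The order of the Tate-Shafarevich group predicted by the formula, for the value `l` of the
L-function of `E_{m,t}` at `s = 1`: `#E_{m,t}(ℚ)_tors² l / (Ω ∏ c_v)`. -/
noncomputable def anOrder (m t : ℕ) (l : ℂ) : ℂ :=
  l * (torsOrder (E m t) : ℂ) ^ 2 / ((Omega (curve m t) : ℝ) * (Tam (E m t) : ℂ))

/-- `m` is squarefree and all its prime factors are `≡ 1 mod 4`. -/
def Adm (m : ℕ) : Prop := Squarefree m ∧ ∀ p ∈ m.primeFactors, p % 4 = 1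

open Classical in
/-- `1` if `a` is not a square modulo `p`, and `0` if it is. -/
noncomputable def nonsq (p a : ℕ) : ZMod 2 := if IsSquare (a : ZMod p) then 0 else 1

/-- The matrix over the field with two elements, with rows and columns indexed by the prime factors of
`m`: the entry at `(p, q)` is `nonsq p q` for `p ≠ q`, and the entry at `(p, p)` is the sum of
`nonsq p 2` and of the `nonsq p l` for all the prime factors `l ≠ p` of `m`. -/
noncomputable def mat (m : ℕ) : Matrix m.primeFactors m.primeFactors (ZMod 2) :=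
  Matrix.of fun p q =>
    if p = q then nonsq p 2 + ∑ l ∈ m.primeFactors.erase p, nonsq p l else nonsq p q

/-- The 2-part of the conjecture, in the case that `z` is a unit at two: `E_{m,t}(ℚ)` is finite, the
2-primary part of `Ш` is zero, `L(E_{m,t}, s)` has an entire continuation `Λ` with `Λ 1 ≠ 0`, and the
predicted order of `Ш` is a unit at all the primes above two. -/
def TwoPart (m t : ℕ) : Prop :=
  Finite (E m t).toAffine.Point ∧ (∀ (n : ℕ) (x : Sha (E m t)), 2 ^ n • x = 0 → x = 0) ∧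
    ∃ Λ : ℂ → ℂ, Differentiable ℂ Λ ∧ (∀ s : ℂ, 2 < s.re → Λ s = (E m t).LSeries s) ∧ Λ 1 ≠ 0 ∧
      ∃ n : ℤ, Odd n ∧ _root_.IsIntegral ℤ (n * anOrder m t (Λ 1)) ∧
        _root_.IsIntegral ℤ (n * (anOrder m t (Λ 1))⁻¹)

section proof

open Pool.Agent.D0H10.Q4 (cQ cZ matQ OmQ anQ bq)
open Pool.Agent.D0H43.MQ.QtF (coreT sel2T sha2T torsT)

lemma adm_iff {m : ℕ} : Pool.Agent.D0H10.Q4.Adm m ↔ Adm m := Iff.rfl

lemma mat_eq (m : ℕ) : matQ m = mat m := rfl

lemma curve_eq (m t : ℕ) : cZ (m * t ^ 2) = curve m t := by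
  unfold cZ curve
  push_cast
  rw [mul_assoc]

lemma E_eq (m t : ℕ) : cQ (m * t ^ 2) = E m t := by
  unfold cQ E
  rw [curve_eq]

lemma Om_eq (m t : ℕ) : OmQ (m * t ^ 2) = Omega (curve m t) := by
  unfold OmQ Omega
  have h : ∀ x : ℝ, cubic (curve m t) x = 4 * x ^ 3 + 8 * ((m * t ^ 2 : ℕ) : ℝ) * x := by
    intro x
    unfold cubic curve WeierstrassCurve.b₂ WeierstrassCurve.b₄ WeierstrassCurve.b₆
    push_cast
    ring
  simp_rw [h]

lemma an_eq (m t : ℕ) (l : ℂ) : anQ (m * t ^ 2) l = anOrder m t l := by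
  unfold anQ anOrder
  rw [Om_eq, E_eq]
  rfl

theorem core {m t : ℕ} (h : Adm m) (ht : t ∣ m) :
    (∀ v : HeightOneSpectrum (𝓞 ℚ), MinimalAt (E m t) v) ∧
    torsOrder (E m t) = 2 ∧
    Tam (E m t) = 2 ^ (m.primeFactors.card + 1) ∧
    ((Finite (E m t).toAffine.Point ∧ ∀ x : Sha (E m t), x + x = 0 → x = 0) ↔ (mat m).det ≠ 0) ∧
    ((mat m).det ≠ 0 → ∀ (n : ℕ) (x : Sha (E m t)), 2 ^ n • x = 0 → x = 0) ∧
    ∃ Λ : ℂ → ℂ, Differentiable ℂ Λ ∧
      (∀ s : ℂ, 2 < s.re → Λ s = (E m t).LSeries s) ∧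
      (∃ n : ℤ, Odd n ∧ _root_.IsIntegral ℤ (n * anOrder m t (Λ 1))) ∧
      (∀ (Γ : Type) [LinearOrderedCommGroupWithZero Γ] (v : Valuation ℂ Γ), v 2 < 1 →
        v (anOrder m t (Λ 1)) ≤ 1 ∧ (v (anOrder m t (Λ 1)) = 1 ↔ (mat m).det ≠ 0)) ∧
      ((mat m).det ≠ 0 → Λ 1 ≠ 0 ∧ ∃ n : ℤ, Odd n ∧ _root_.IsIntegral ℤ (n * anOrder m t (Λ 1)) ∧
        _root_.IsIntegral ℤ (n * (anOrder m t (Λ 1))⁻¹)) := by
  have hT := Pool.Agent.D0H42.MQ.tamt
  obtain ⟨Λ, h1, h2, h3, h4, h5⟩ := coreT hT h ht
  have a1 := hT m t h ht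
  have a2 := torsT h ht
  have a3 := sel2T h ht
  have a4 := fun hd => sha2T h ht hd
  simp only [an_eq] at h3 h4 h5
  rw [E_eq] at h2 a1 a2 a3 a4
  exact ⟨a1.1, a2, a1.2, a3, a4, Λ, h1, fun s hs => (h2 s hs).2, h3, h4, h5⟩

/-- the 2-part of the conjecture holds exactly in the nonsingular case -/
theorem two_iff {m t : ℕ} (h : Adm m) (ht : t ∣ m) : TwoPart m t ↔ (mat m).det ≠ 0 := by
  obtain ⟨-, -, -, h4, h5, Λ, h6, h7, -, -, h8⟩ := core h ht
  constructor
  · rintro ⟨hf, hs, -⟩
    exact h4.1 ⟨hf, fun x hx => hs 1 x (by rw [pow_one, two_nsmul]; exact hx)⟩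
  · intro hd
    obtain ⟨h9, h10⟩ := h8 hd
    exact ⟨(h4.2 hd).1, h5 hd, Λ, h6, h7, h9, h10⟩

theorem all_iff {m : ℕ} (h : Adm m) : (∀ t : ℕ, t ∣ m → TwoPart m t) ↔ (mat m).det ≠ 0 :=
  ⟨fun h1 => (two_iff h (one_dvd m)).1 (h1 1 (one_dvd m)), fun h1 _ ht => (two_iff h ht).2 h1⟩

end proof

open Classical in
/-- **The 2-part of the conjecture of Birch and Swinnerton-Dyer for all the curves
`y² = x³ + 2 m t² x`, `t ∣ m`.** -/
theorem result :
    (∀ m : ℕ, Adm m → ∀ t : ℕ, t ∣ m →
      (∀ v : HeightOneSpectrum (𝓞 ℚ), MinimalAt (E m t) v) ∧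
      torsOrder (E m t) = 2 ∧
      Tam (E m t) = 2 ^ (m.primeFactors.card + 1) ∧
      ((Finite (E m t).toAffine.Point ∧ ∀ x : Sha (E m t), x + x = 0 → x = 0) ↔ (mat m).det ≠ 0) ∧
      (TwoPart m t ↔ (mat m).det ≠ 0) ∧
      ∃ Λ : ℂ → ℂ, Differentiable ℂ Λ ∧
        (∀ s : ℂ, 2 < s.re → Λ s = (E m t).LSeries s) ∧
        (∃ n : ℤ, Odd n ∧ _root_.IsIntegral ℤ (n * anOrder m t (Λ 1))) ∧
        ∀ (Γ : Type) [LinearOrderedCommGroupWithZero Γ] (v : Valuation ℂ Γ), v 2 < 1 →
          v (anOrder m t (Λ 1)) ≤ 1 ∧ (v (anOrder m t (Λ 1)) = 1 ↔ (mat m).det ≠ 0)) ∧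
    Filter.Tendsto (fun X : ℕ =>
        (((Finset.Icc 1 X).filter fun m => Adm m ∧ ∀ t : ℕ, t ∣ m → TwoPart m t).card : ℝ) /
        (((Finset.Icc 1 X).filter fun m => Adm m).card : ℝ)) Filter.atTop
      (nhds (∏' i : ℕ, (1 - (1 / 2 : ℝ) ^ (2 * i + 1)))) := by
  refine ⟨fun m h t ht => ?_, ?_⟩
  · obtain ⟨h1, h2, h3, h4, -, Λ, h6, h7, h8, h9, -⟩ := core h ht
    exact ⟨h1, h2, h3, h4, two_iff h ht, Λ, h6, h7, h8, h9⟩
  · refine Pool.Agent.D0H10.Q4.denQ.congr fun X => ?_
    refine congrArg₂ (fun a b : ℕ => (a : ℝ) / (b : ℝ)) ?_ rfl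
    refine congrArg Finset.card (Finset.ext fun m => ?_)
    rw [Finset.mem_filter, Finset.mem_filter]
    refine and_congr_right fun _ => and_congr_right fun h => ?_
    exact (all_iff h).symm

end Pool.Agent.Results.MP_4a9ea6_nt.TwoPartTwistsByDivisors
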